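import Pool.Agent.Q158.FLDim

/-!
# The fractional local t-dimension of an m-element chain is at least log_t m
-/

set_option autoImplicit false

namespace Pool.Agent.Results.MP_c6110c_co.LogLowerBound

open Q158.FLDim

/-- For all `t ≥ 2` and `m ≥ 1` the fractional local `t`-dimension of the `m`-element chain is at
least `log_t m`. -/
theorem result : ∀ t m : ℕ, 2 ≤ t → 1 ≤ m → Real.logb t m ≤ fldim t (Fin m) :=
  fun _ _ ht hm => logb_le_fldim ht hm

end Pool.Agent.Results.MP_c6110c_co.LogLowerBound
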